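import Pool.Agent.H275R2.Kwise.Points

set_option autoImplicit false

namespace Pool.Agent.Results.MP_41a254_co.KWisePosition

/-- Euclidean three-space. -/
abbrev E3 : Type := EuclideanSpace ℝ (Fin 3)

/-- A convex body: a compact convex set with nonempty interior. -/
def IsConvexBody (K : Set E3) : Prop := IsCompact K ∧ Convex ℝ K ∧ (interior K).Nonempty

/-- Some plane `{x | ⟪u, x⟫ = t}` (with `u ≠ 0`) strictly separates `X` from `Y`. -/
def SeparatedByPlane (X Y : Set E3) : Prop :=
  ∃ (u : E3) (t : ℝ), u ≠ 0 ∧ (∀ x ∈ X, inner ℝ u x < t) ∧ (∀ y ∈ Y, t < inner ℝ u y)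

/-- A family is separable if for any three distinct members `A, B, C` some plane separates
`A ∪ B` from `C`. -/
def Separable (F : Set (Set E3)) : Prop :=
  ∀ A ∈ F, ∀ B ∈ F, ∀ C ∈ F, A ≠ B → A ≠ C → B ≠ C → SeparatedByPlane (A ∪ B) C

/-- The plane `{x | ⟪u, x⟫ = t}` supports `K`: it meets `K`, and `K` lies on one of its two
sides. -/
def Supports (u : E3) (t : ℝ) (K : Set E3) : Prop :=
  (∃ x ∈ K, inner ℝ u x = t) ∧ ((∀ x ∈ K, inner ℝ u x ≤ t) ∨ (∀ x ∈ K, t ≤ inner ℝ u x))

/-- A family is nondegenerate if no four members have a common supporting plane (whatever the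
sides on which they lie). -/
def Nondegenerate (F : Set (Set E3)) : Prop :=
  ∀ G ⊆ F, G.ncard = 4 → ¬ ∃ (u : E3) (t : ℝ), u ≠ 0 ∧ ∀ K ∈ G, Supports u t K

/-- The members of `F` are in convex position: for every member `C`, the boundary of
`conv (⋃ F)` contains a piece `S` of the boundary of `C`, that is, a subset of `∂C` with
nonempty interior relative to `∂C`. -/
def InConvexPosition (F : Set (Set E3)) : Prop :=
  ∀ C ∈ F, ∃ S : Set E3, S ⊆ frontier C ∧ S ⊆ frontier (convexHull ℝ (⋃₀ F)) ∧
    ∃ V : Set E3, IsOpen V ∧ (V ∩ frontier C).Nonempty ∧ V ∩ frontier C ⊆ S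

/-- For every positive `k` there is an `N` such that for every `n ≥ N` there is a separable
nondegenerate family of `n` convex bodies in three-space in which every `k` members are in
convex position, but the `n` members are not all in convex position. -/
theorem result : ∀ k : ℕ, 0 < k → ∃ N : ℕ, ∀ n : ℕ, N ≤ n → ∃ F : Set (Set E3),
    F.Finite ∧ F.ncard = n ∧ (∀ K ∈ F, IsConvexBody K) ∧ Separable F ∧ Nondegenerate F ∧
      (∀ G ⊆ F, G.ncard = k → InConvexPosition G) ∧ ¬ InConvexPosition F := by
  intro k _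
  refine ⟨k + 6, fun n hn => ?_⟩
  obtain ⟨P, r0, hP⟩ := Pool.Agent.H275R2.Kwise.exists_config (m := n - 2) (by omega)
  have hcard : Fintype.card (Option (Fin (n - 2))) = n - 1 := by
    rw [Fintype.card_option, Fintype.card_fin]; omega
  obtain ⟨F, h1, h2, h3, h4, h5, h6, h7⟩ :=
    Pool.Agent.H275R2.Kwise.family_of_config hP (by omega)
  have hn' : F.ncard = n := by omega
  refine ⟨F, h1, hn', h3, h4, h5, ?_, h7⟩
  intro G hG hGk
  refine h6 G hG ?_
  rintro rfl
  omega

end Pool.Agent.Results.MP_41a254_co.KWisePosition
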